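import Pool.Agent.T9h93.CA.Val

/-!
The identities `ff` form a strongly independent system in the variety of commutative alternative
nil-algebras of index three, solvable of index three, over a field of characteristic three.
-/

namespace Pool.Agent.T9h93.CA

open ExteriorAlgebra Pool.Agent.H739SJ FreeNonUnitalNonAssocAlgebra

universe u

section values

variable {F : Type u} [Field F]

open CAlg

theorem two_ne (h3 : (3 : F) = 0) : (2 : F) ≠ 0 := by
  intro h
  have : (1 : F) = 0 := by linear_combination h3 - h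
  exact one_ne_zero this

set_option linter.unusedSimpArgs false in
theorem cube_zero [CharP F 3] {W : Type u} [AddCommGroup W] [Module F W]
    {τ : ExteriorAlgebra F W →ₗ[F] F} (hτ : τ 1 = 0) (X : CAlg τ) : (X * X) * X = 0 := by
  have : Fact (Nat.Prime 3) := ⟨Nat.prime_three⟩
  have h3 : (3 : F) = 0 := by exact_mod_cast CharP.cast_eq_zero F 3
  have h2 : (2 : F) ≠ 0 := two_ne h3
  obtain ⟨s, hs⟩ := frob (F := F) 3 (by norm_num) X.al
  have hs' : ev X.al * (ev X.al * ev X.al) = algebraMap F (ExteriorAlgebra F W) s := by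
    rw [← hs]; noncomm_ring
  have hs2 : τ (ev X.al * (ev X.al * ev X.al)) = 0 := by
    rw [hs', Algebra.algebraMap_eq_smul_one, map_smul, hτ, smul_zero]
  obtain ⟨c, hc⟩ : ∃ c, c = X.c := ⟨_, rfl⟩
  have z3 : ∀ t : ExteriorAlgebra F W, (3 : F) • t = 0 := fun t => by rw [h3, zero_smul]
  refine CAlg.ext ?_ ?_ ?_ ?_
  · simp
  · simp only [al_mul, c_mul, map_zero, mul_zero, add_zero, ← hc, add_mul,
      mul_assoc, ExteriorAlgebra.ι_sq_zero, al_zero]
  · simp only [de_mul, hde, al_mul, c_mul, map_zero, mul_zero, add_zero, smul_zero, zero_add,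
        ← hc, map_add, map_sub, map_smul, map_neg, ev_mul h2, od_mul h2, ev_ev h2,
        od_od h2, ev_od,
        od_ev, ev_ι, od_ι h2, zero_mul, add_mul, mul_add, sub_mul, mul_sub,
        smul_add, smul_sub, smul_smul, smul_mul_assoc,
        mul_smul_comm, mul_assoc, mul_neg, neg_mul, ExteriorAlgebra.ι_sq_zero, ιsq',
        evι h2, evι' h2, odι, odι' h2, odev h2, odev' h2, od_sq h2, od_sq' h2, neg_neg,
        smul_neg, neg_zero, sub_zero, zero_sub, de_zero]
    rw [← z3 ((2 : F) • (ExteriorAlgebra.ι F c * (ev X.al * od X.al)))]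
    module
  · simp only [z_mul, c_mul, de_mul, hde, al_mul, map_zero, mul_zero, add_zero, smul_zero,
        zero_add,
        ← hc, ev_mul h2, od_mul h2, ev_ev h2,
        od_od h2, ev_od,
        od_ev, ev_ι, od_ι h2, zero_mul, add_mul, mul_add, sub_mul, mul_sub,
        smul_add, smul_sub, smul_smul, smul_mul_assoc,
        mul_smul_comm, mul_assoc, mul_neg, neg_mul, ExteriorAlgebra.ι_sq_zero, ιsq',
        evι h2, evι' h2, odι, odι' h2, odev h2, odev' h2, od_sq h2, od_sq' h2, neg_neg,
        smul_neg, neg_zero, sub_zero, zero_sub, map_add, map_sub, map_neg, hs2, z_zero]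
    ring

theorem ff_zero [CharP F 3] (m n : ℕ) (hn : Odd n) (hm : m ≠ 5 + n)
    (t : ℕ → CAlg (topf F m)) (x : CAlg (topf F m)) : ff t n x = 0 := by
  have : Fact (Nat.Prime 3) := ⟨Nat.prime_three⟩
  have h3 : (3 : F) = 0 := by exact_mod_cast CharP.cast_eq_zero F 3
  rw [ff_val (two_ne h3) h3 t n hn x]
  obtain ⟨s, hs⟩ := frob (F := F) 3 (by norm_num) x.al
  rw [hs, ← Algebra.smul_def, map_smul, wp_ιMulti, topf_ne F hm.symm, smul_zero, mul_zero]
  rfl

theorem ff_ne [CharP F 3] (m n : ℕ) (hn : Odd n) (hm : m = 5 + n) :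
    ∃ (t : ℕ → CAlg (topf F m)) (x : CAlg (topf F m)), ff t n x ≠ 0 := by
  have h3 : (3 : F) = 0 := by exact_mod_cast CharP.cast_eq_zero F 3
  have h2 := two_ne h3
  refine ⟨fun i => mk (xi F m i) 0 0 0, mk 0 1 0 0, ?_⟩
  rw [ff_val h2 h3 _ n hn]
  intro h
  have hz := congrArg CAlg.z h
  rw [z_mk, z_zero] at hz
  simp only [c_mk, al_mk] at hz
  have e1 : ev (1 : ExteriorAlgebra F (Fin m → F)) = 1 := by
    have := ev_algebraMap (W := Fin m → F) h2 1
    simpa using this
  rw [e1, one_pow, one_mul, ← hm, wp_ιMulti, topf_eq] at hz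
  have e3 : Matrix.of (fun i : Fin m => xi F m i) = 1 := by
    ext i j
    rw [Matrix.of_apply, Matrix.one_apply, xi]
    by_cases hij : i = j
    · rw [if_pos hij, if_pos (by rw [hij])]
    · rw [if_neg hij, if_neg (fun h => hij (Fin.ext h.symm))]
  rw [e3, Matrix.det_one, mul_one] at hz
  exact h2 hz

end values

section final

variable (F : Type u) [Field F]

/-- left alternativity -/
noncomputable def sAlt : FreeNonUnitalNonAssocAlgebra F ℕ :=
  (X F 0 * X F 0) * X F 1 - X F 0 * (X F 0 * X F 1)

/-- the cube -/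
noncomputable def sCube : FreeNonUnitalNonAssocAlgebra F ℕ := (X F 0 * X F 0) * X F 0

/-- the infinite series of identities -/
noncomputable def sg1 (r : ℕ) : FreeNonUnitalNonAssocAlgebra F ℕ :=
  ff (fun i => X F (i + 1)) (2 * r + 1) (X F 0)

/-- the identities of commutative alternative nil-algebras of index three, solvable of index
three -/
def base : Set (FreeNonUnitalNonAssocAlgebra F ℕ) := {sComm F, sAlt F, sCube F, sSolv F}

/-- The algebra `B` is commutative, alternative, satisfies `x³ = 0` and is solvable of index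
three. -/
structure Good (B : Type u) [NonUnitalNonAssocRing B] [Module F B] : Prop where
  comm : ∀ x y : B, x * y = y * x
  altl : ∀ x y : B, (x * x) * y = x * (x * y)
  altr : ∀ x y : B, (y * x) * x = y * (x * x)
  cube : ∀ x : B, (x * x) * x = 0
  solv : H739SJ.derivedSeries F B 3 = ⊥

theorem solv_of (B : Type u) [NonUnitalNonAssocRing B] [Module F B]
    [IsScalarTower F B B] [SMulCommClass F B B]
    (key : ∀ a b c d e f g k : B, ((a * b) * (c * d)) * ((e * f) * (g * k)) = 0) :
    H739SJ.derivedSeries F B 3 = ⊥ := by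
  have gen : ∀ k : ℕ, ∀ P : B → Prop, P 0 → (∀ x y, P x → P y → P (x + y)) →
      (∀ (r : F) x, P x → P (r • x)) →
      (∀ x ∈ H739SJ.derivedSeries F B k, ∀ y ∈ H739SJ.derivedSeries F B k, P (x * y)) →
      ∀ x ∈ H739SJ.derivedSeries F B (k + 1), P x := by
    intro k P h0 ha hs' hm x hx
    rw [H739SJ.derivedSeries] at hx
    induction hx using Submodule.span_induction with
    | mem x hx => obtain ⟨y, hy, z, hz, rfl⟩ := hx; exact hm y hy z hz
    | zero => exact h0
    | add x y _ _ hx hy => exact ha x y hx hy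
    | smul r x _ hx => exact hs' r x hx
  rw [eq_bot_iff]
  intro x hx
  rw [Submodule.mem_bot]
  refine gen 2 (fun x => x = 0) rfl (fun x y hx hy => by rw [hx, hy, add_zero])
    (fun r x hx => by rw [hx, smul_zero]) ?_ x hx
  intro x hx y hy
  have hA : ∀ x ∈ H739SJ.derivedSeries F B 2, ∀ e f g k : B, x * ((e * f) * (g * k)) = 0 := by
    intro x hx e f g k
    refine gen 1 (fun x => x * ((e * f) * (g * k)) = 0) (zero_mul _)
      (fun x y hx hy => by rw [add_mul, hx, hy, add_zero])
      (fun r x hx => by rw [smul_mul_assoc, hx, smul_zero]) ?_ x hx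
    intro x hx y hy
    refine gen 0 (fun x => (x * y) * ((e * f) * (g * k)) = 0)
      (by rw [zero_mul, zero_mul])
      (fun x y hx hy => by rw [add_mul, add_mul, hx, hy, add_zero])
      (fun r x hx => by rw [smul_mul_assoc, smul_mul_assoc, hx, smul_zero]) ?_ x hx
    intro a _ b _
    refine gen 0 (fun y => ((a * b) * y) * ((e * f) * (g * k)) = 0)
      (by rw [mul_zero, zero_mul])
      (fun x y hx hy => by rw [mul_add, add_mul, hx, hy, add_zero])
      (fun r x hx => by rw [mul_smul_comm, smul_mul_assoc, hx, smul_zero]) ?_ y hy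
    intro c _ d _
    exact key a b c d e f g k
  refine gen 1 (fun y => x * y = 0) (mul_zero _)
    (fun y z hy hz => by rw [mul_add, hy, hz, add_zero])
    (fun r y hy => by rw [mul_smul_comm, hy, smul_zero]) ?_ y hy
  intro y hy z hz
  refine gen 0 (fun y => x * (y * z) = 0) (by rw [zero_mul, mul_zero])
    (fun y y' hy hz => by rw [add_mul, mul_add, hy, hz, add_zero])
    (fun r y hy => by rw [smul_mul_assoc, mul_smul_comm, hy, smul_zero]) ?_ y hy
  intro a _ b _
  refine gen 0 (fun z => x * ((a * b) * z) = 0) (by rw [mul_zero, mul_zero])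
    (fun y y' hy hz => by rw [mul_add, mul_add, hy, hz, add_zero])
    (fun r y hy => by rw [mul_smul_comm, mul_smul_comm, hy, smul_zero]) ?_ z hz
  intro c _ d _
  exact hA x hx a b c d

theorem base_good (B : Type u) [NonUnitalNonAssocRing B] [Module F B]
    [IsScalarTower F B B] [SMulCommClass F B B] (h : InVariety F (base F) B) : Good F B := by
  have hc : Satisfies F B (sComm F) := h _ (by simp [base])
  have ha : Satisfies F B (sAlt F) := h _ (by simp [base])
  have hq : Satisfies F B (sCube F) := h _ (by simp [base])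
  have hs : Satisfies F B (sSolv F) := h _ (by simp [base])
  have comm : ∀ x y : B, x * y = y * x := fun x y => by
    have := hc (fun i => if i = 0 then x else y)
    simp only [sComm, X, map_sub, map_mul, lift_of_apply] at this
    simpa [sub_eq_zero] using this
  have altl : ∀ x y : B, (x * x) * y = x * (x * y) := fun x y => by
    have := ha (fun i => if i = 0 then x else y)
    simp only [sAlt, X, map_sub, map_mul, lift_of_apply] at this
    simpa [sub_eq_zero] using this
  refine ⟨comm, altl, fun x y => ?_, fun x => ?_, solv_of F B ?_⟩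
  · rw [comm (y * x) x, comm y x, ← altl, comm (x * x) y]
  · have := hq (fun _ => x)
    simp only [sCube, X, map_mul, lift_of_apply] at this
    exact this
  · intro a b c d e f g k
    have := hs (fun i => if i = 0 then a else if i = 1 then b else if i = 2 then c else
      if i = 3 then d else if i = 4 then e else if i = 5 then f else if i = 6 then g else k)
    simp only [sSolv, X, map_mul, lift_of_apply] at this
    simpa using this

theorem good_base (B : Type u) [NonUnitalNonAssocRing B] [Module F B]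
    [IsScalarTower F B B] [SMulCommClass F B B] (h : Good F B) : InVariety F (base F) B := by
  intro s hs
  simp only [base, Set.mem_insert_iff, Set.mem_singleton_iff] at hs
  rcases hs with rfl | rfl | rfl | rfl
  · intro v
    simp only [sComm, X, map_sub, map_mul, lift_of_apply]
    rw [h.comm, sub_self]
  · intro v
    simp only [sAlt, X, map_sub, map_mul, lift_of_apply]
    rw [h.altl, sub_self]
  · intro v
    simp only [sCube, X, map_mul, lift_of_apply]
    exact h.cube _
  · intro v
    simp only [sSolv, X, map_mul, lift_of_apply]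
    have m0 : ∀ a : B, a ∈ H739SJ.derivedSeries F B 0 := fun a => Submodule.mem_top
    have m1 : ∀ k, ∀ a ∈ H739SJ.derivedSeries F B k, ∀ b ∈ H739SJ.derivedSeries F B k,
        a * b ∈ H739SJ.derivedSeries F B (k + 1) := fun k a ha b hb =>
      Submodule.subset_span ⟨a, ha, b, hb, rfl⟩
    have m2 : ∀ a b c d : B, (a * b) * (c * d) ∈ H739SJ.derivedSeries F B 2 := fun a b c d =>
      m1 1 _ (m1 0 _ (m0 _) _ (m0 _)) _ (m1 0 _ (m0 _) _ (m0 _))
    have m3 := m1 2 _ (m2 (v 0) (v 1) (v 2) (v 3)) _ (m2 (v 4) (v 5) (v 6) (v 7))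
    rw [show 2 + 1 = 3 from rfl, h.solv, Submodule.mem_bot] at m3
    exact m3

theorem sg1_eval (r : ℕ) (B : Type u) [NonUnitalNonAssocRing B] [Module F B]
    [IsScalarTower F B B] [SMulCommClass F B B] (v : ℕ → B) :
    FreeNonUnitalNonAssocAlgebra.lift F v (sg1 F r)
      = ff (fun i => v (i + 1)) (2 * r + 1) (v 0) := by
  rw [sg1, map_ff]
  simp only [X, lift_of_apply]

/-- the algebras -/
abbrev AA (r : ℕ) : Type u := CAlg (topf F (5 + (2 * r + 1)))

variable [CharP F 3]

theorem AA_base (r : ℕ) : InVariety F (base F) (AA F r) := by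
  have h3 : (3 : F) = 0 := by exact_mod_cast CharP.cast_eq_zero F 3
  intro s hs
  simp only [base, Set.mem_insert_iff, Set.mem_singleton_iff] at hs
  rcases hs with rfl | rfl | rfl | rfl
  · intro v
    simp only [sComm, X, map_sub, map_mul, lift_of_apply]
    rw [CAlg.comm, sub_self]
  · intro v
    simp only [sAlt, X, map_sub, map_mul, lift_of_apply]
    rw [CAlg.alt h3, sub_self]
  · intro v
    simp only [sCube, X, map_mul, lift_of_apply]
    apply cube_zero
    have e : (1 : ExteriorAlgebra F (Fin (5 + (2 * r + 1)) → F))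
        = ExteriorAlgebra.ιMulti F 0 (fun i : Fin 0 => Fin.elim0 i) := by
      rw [ExteriorAlgebra.ιMulti_zero_apply]
    rw [e, topf_ne F (by omega)]
  · intro v
    simp only [sSolv, X, map_mul, lift_of_apply]
    have hc : ∀ a b : AA F r, (a * b).c = 0 := fun a b => CAlg.c_mul a b
    have hal : ∀ a b c d : AA F r, ((a * b) * (c * d)).al = 0 := by
      intro a b c d
      rw [CAlg.al_mul, hc, hc, map_zero, mul_zero, mul_zero, add_zero]
    refine CAlg.ext (hc _ _) ?_ ?_ ?_
    · rw [CAlg.al_mul, hc, hc, map_zero, mul_zero, mul_zero, add_zero]; rfl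
    · rw [CAlg.de_mul]
      simp only [CAlg.hde, hc, hal, map_zero, mul_zero, add_zero, sub_zero]; rfl
    · rw [CAlg.z_mul, hal, hal]
      simp only [map_zero, mul_zero, add_zero]; rfl

theorem AA_sat (r q : ℕ) (h : q ≠ r) : Satisfies F (AA F r) (sg1 F q) := by
  intro v
  rw [sg1_eval]
  exact ff_zero _ _ ⟨q, rfl⟩ (by omega) _ _

theorem AA_not (r : ℕ) : ¬ Satisfies F (AA F r) (sg1 F r) := by
  intro hr
  obtain ⟨t, x, hne⟩ := ff_ne (F := F) _ (2 * r + 1) ⟨r, rfl⟩ rfl
  apply hne
  have := hr (fun i => if i = 0 then x else t (i - 1))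
  rw [sg1_eval] at this
  simpa using this

theorem not_fb' (I : Set ℕ) (hI : I.Infinite) (T : Set (FreeNonUnitalNonAssocAlgebra F ℕ))
    (hT : T.Finite) :
    ¬ ∀ (B : Type u) [NonUnitalNonAssocRing B] [Module F B] [IsScalarTower F B B]
      [SMulCommClass F B B], InVariety F (base F ∪ sg1 F '' I) B ↔ InVariety F T B := by
  obtain ⟨e⟩ : Nonempty (ℕ ↪ I) := ⟨hI.natEmbedding I⟩
  refine not_fb F (fun r => AA F (e r)) (base F ∪ sg1 F '' I) ?_ ?_ T hT
  · intro s hs
    rcases hs with hs | ⟨q, hq, rfl⟩
    · exact Filter.Eventually.of_forall fun r => AA_base F _ s hs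
    · have hsub : {r | ¬ Satisfies F (AA F (e r)) (sg1 F q)} ⊆ {r | (e r : ℕ) = q} := by
        intro r hr
        by_contra hne
        exact hr (AA_sat F _ _ (fun h => hne h.symm))
      refine Set.Finite.subset ?_ hsub
      refine Set.Subsingleton.finite ?_
      intro a ha b hb
      exact e.injective (Subtype.ext (ha.trans hb.symm))
  · intro r h
    exact AA_not F (e r) (h _ (Or.inr ⟨e r, (e r).2, rfl⟩))

end final

end Pool.Agent.T9h93.CA
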