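import Pool.Agent.T9h93.CA.Alg
import Pool.Agent.H739SJ.Main

/-!
The identities `ff` and their values in `CAlg τ`.
-/

namespace Pool.Agent.T9h93.CA

open ExteriorAlgebra Pool.Agent.H739SJ

universe u v

section polys

variable {A : Type v} [NonUnitalNonAssocRing A]

/-- the word `(((x y₁) b) ((x y₂) s)) ((((x y₃) t₀) ⋯ ) t_{n-1})` -/
def word (t : ℕ → A) (n : ℕ) (x y₁ y₂ y₃ b s : A) : A :=
  (((x * y₁) * b) * ((x * y₂) * s)) * fill t (x * y₃) n

/-- the identities: `x` occurs three times, `t₀, …, t_{n+4}` once -/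
def ff (t : ℕ → A) (n : ℕ) (x : A) : A :=
  word (fun i => t (5 + i)) n x (t 0) (t 2) (t 3) (t 1) (t 4)
    - word (fun i => t (5 + i)) n x (t 1) (t 2) (t 3) (t 0) (t 4)
    - word (fun i => t (5 + i)) n x (t 0) (t 1) (t 3) (t 2) (t 4)
    + word (fun i => t (5 + i)) n x (t 0) (t 1) (t 2) (t 3) (t 4)

end polys

section hom

variable {F : Type u} [Field F] {A : Type v} [NonUnitalNonAssocRing A] [Module F A]
  {B : Type*} [NonUnitalNonAssocRing B] [Module F B]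

theorem map_word (φ : A →ₙₐ[F] B) (t : ℕ → A) (n : ℕ) (x y₁ y₂ y₃ b s : A) :
    φ (word t n x y₁ y₂ y₃ b s)
      = word (fun i => φ (t i)) n (φ x) (φ y₁) (φ y₂) (φ y₃) (φ b) (φ s) := by
  simp only [word, map_mul, map_fill]

theorem map_ff (φ : A →ₙₐ[F] B) (t : ℕ → A) (n : ℕ) (x : A) :
    φ (ff t n x) = ff (fun i => φ (t i)) n (φ x) := by
  simp only [ff, map_sub, map_add, map_word]

end hom

section Elevel

variable {F : Type u} [Field F] {W : Type u} [AddCommGroup W] [Module F W]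

/-- the cubic form -/
noncomputable def P3 (a b d : ExteriorAlgebra F W) : ExteriorAlgebra F W :=
  -(2 : F) • (ev a * (ev b * ev d)) + (ev a * (od b * od d) + ev b * (od a * od d))

theorem P3_add1 (a a' b d : ExteriorAlgebra F W) : P3 (a + a') b d = P3 a b d + P3 a' b d := by
  simp only [P3, map_add, add_mul, mul_add, smul_add]; abel

theorem P3_add2 (a b b' d : ExteriorAlgebra F W) : P3 a (b + b') d = P3 a b d + P3 a b' d := by
  simp only [P3, map_add, add_mul, mul_add, smul_add]; abel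

theorem P3_add3 (a b d d' : ExteriorAlgebra F W) : P3 a b (d + d') = P3 a b d + P3 a b d' := by
  simp only [P3, map_add, mul_add, smul_add]; abel

variable (h2 : (2 : F) ≠ 0)
include h2

/-- even factors can be taken out -/
theorem P3_even (a b d u v w : ExteriorAlgebra F W) (hu : sg u = u) (hv : sg v = v)
    (hw : sg w = w) : P3 (a * u) (b * v) (d * w) = P3 a b d * (u * (v * w)) := by
  have evu : ∀ u : ExteriorAlgebra F W, sg u = u → ev u = u ∧ od u = 0 := by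
    intro u hu
    refine ⟨?_, ?_⟩
    · rw [ev_apply, hu, ← two_smul F, smul_smul, inv_mul_cancel₀ h2, one_smul]
    · rw [od_apply, hu, sub_self, smul_zero]
  have cen : ∀ u : ExteriorAlgebra F W, sg u = u → ∀ x, u * x = x * u := by
    intro u hu x
    have := ev_comm h2 u x
    rwa [(evu u hu).1] at this
  have e1 : ∀ a u : ExteriorAlgebra F W, sg u = u → ev (a * u) = ev a * u := by
    intro a u hu
    rw [ev_mul h2, (evu u hu).1, (evu u hu).2, mul_zero, add_zero]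
  have e2 : ∀ a u : ExteriorAlgebra F W, sg u = u → od (a * u) = od a * u := by
    intro a u hu
    rw [od_mul h2, (evu u hu).1, (evu u hu).2, mul_zero, zero_add]
  have key : ∀ x y z : ExteriorAlgebra F W, x * u * (y * v * (z * w))
      = x * (y * z) * (u * (v * w)) := by
    intro x y z
    have c1 : u * (y * (v * (z * w))) = y * (z * (u * (v * w))) := by
      rw [← mul_assoc u y, cen u hu y, mul_assoc, ← mul_assoc v z, cen v hv z, mul_assoc,
        ← mul_assoc u z, cen u hu z, mul_assoc]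
    simp only [mul_assoc]
    rw [c1]
  have key' : ∀ x y z : ExteriorAlgebra F W, x * v * (y * u * (z * w))
      = x * (y * z) * (u * (v * w)) := by
    intro x y z
    have c1 : v * (y * (u * (z * w))) = y * (z * (u * (v * w))) := by
      rw [← mul_assoc v y, cen v hv y, mul_assoc, ← mul_assoc u z, cen u hu z, mul_assoc,
        ← mul_assoc v z, cen v hv z, mul_assoc, ← mul_assoc v u, cen v hv u, mul_assoc]
    simp only [mul_assoc]
    rw [c1]
  simp only [P3, e1 _ _ hu, e1 _ _ hv, e1 _ _ hw, e2 _ _ hu, e2 _ _ hv, e2 _ _ hw, key, key',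
    add_mul, smul_mul_assoc]

/-- the polarisation of the cube -/
noncomputable def Q3 (a b : ExteriorAlgebra F W) : ExteriorAlgebra F W := P3 b a a

omit h2 in
theorem Q3_def (a b : ExteriorAlgebra F W) : Q3 a b = P3 b a a := rfl

theorem P3_mid (a b : ExteriorAlgebra F W) : P3 a b a = Q3 a b := by
  have e1 : ev a * (ev b * ev a) = ev b * (ev a * ev a) := evev' h2 a b (ev a)
  have e2 : od b * od a = od b * od a := rfl
  simp only [Q3, P3, od_sq h2, mul_zero, add_zero, zero_add, e1]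

theorem P3_last (h3 : (3 : F) = 0) (a b : ExteriorAlgebra F W) : P3 a a b = Q3 a b := by
  have e1 : ev a * (ev a * ev b) = ev b * (ev a * ev a) := by
    rw [evev h2 a b, evev' h2 a b (ev a)]
  have e2 : od a * od b = -(od b * od a) := od_anti h2 _ _
  have z3 : ∀ t : ExteriorAlgebra F W, (3 : F) • t = 0 := fun t => by rw [h3, zero_smul]
  rw [← sub_eq_zero]
  simp only [Q3, P3, od_sq h2, mul_zero, zero_add, e1, e2, mul_neg]
  rw [← z3 (-(ev a * (od b * od a)))]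
  module

theorem P3_cube (a : ExteriorAlgebra F W) : P3 a a a = -(2 : F) • ev a ^ 3 := by
  simp only [P3, od_sq h2, mul_zero, add_zero, pow_succ, pow_zero, one_mul, mul_assoc]

omit h2 in
/-- a product of five vectors and one further factor -/
noncomputable def NN (s : W) (Θ : ExteriorAlgebra F W) (p q r o : W) : ExteriorAlgebra F W :=
  ExteriorAlgebra.ι F p * (ExteriorAlgebra.ι F q * (ExteriorAlgebra.ι F r *
    (ExteriorAlgebra.ι F o * (ExteriorAlgebra.ι F s * Θ))))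

omit h2 in
theorem swap' (v w : W) (t : ExteriorAlgebra F W) :
    ExteriorAlgebra.ι F v * (ExteriorAlgebra.ι F w * t)
      = -(ExteriorAlgebra.ι F w * (ExteriorAlgebra.ι F v * t)) := by
  rw [← mul_assoc, ι_swap, neg_mul, mul_assoc]

omit h2 in
theorem NN12 (s : W) (Θ : ExteriorAlgebra F W) (p q r o : W) :
    NN s Θ p q r o = -NN s Θ q p r o := by
  rw [NN, NN, swap' p q]

omit h2 in
theorem NN23 (s : W) (Θ : ExteriorAlgebra F W) (p q r o : W) :
    NN s Θ p q r o = -NN s Θ p r q o := by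
  rw [NN, NN, swap' q r, mul_neg]

omit h2 in
theorem NN34 (s : W) (Θ : ExteriorAlgebra F W) (p q r o : W) :
    NN s Θ p q r o = -NN s Θ p q o r := by
  rw [NN, NN, swap' r o, mul_neg, mul_neg]

omit h2 in
theorem UU (s : W) (Θ : ExteriorAlgebra F W) (p q r o : W) :
    (ExteriorAlgebra.ι F p * ExteriorAlgebra.ι F q) *
      ((ExteriorAlgebra.ι F r * ExteriorAlgebra.ι F s) * (ExteriorAlgebra.ι F o * Θ))
      = -NN s Θ p q r o := by
  rw [NN]
  simp only [mul_assoc]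
  rw [swap' s o]
  simp only [mul_neg]

/-- the argument of `τ` in the value of a word -/
noncomputable def EE (α : ExteriorAlgebra F W) (c s : W) (Θ : ExteriorAlgebra F W)
    (y₁ : W) (β₁ : ExteriorAlgebra F W) (y₂ : W) (β₂ : ExteriorAlgebra F W)
    (y₃ : W) (β₃ : ExteriorAlgebra F W) (b : W) : ExteriorAlgebra F W :=
  P3 ((α * ExteriorAlgebra.ι F y₁ + β₁ * ExteriorAlgebra.ι F c) * ExteriorAlgebra.ι F b)
    ((α * ExteriorAlgebra.ι F y₂ + β₂ * ExteriorAlgebra.ι F c) * ExteriorAlgebra.ι F s)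
    ((α * ExteriorAlgebra.ι F y₃ + β₃ * ExteriorAlgebra.ι F c) * Θ)

theorem EE_eq (h3 : (3 : F) = 0) (α : ExteriorAlgebra F W) (c s : W) (Θ : ExteriorAlgebra F W)
    (hΘ : sg Θ = -Θ)
    (y₁ : W) (β₁ : ExteriorAlgebra F W) (y₂ : W) (β₂ : ExteriorAlgebra F W)
    (y₃ : W) (β₃ : ExteriorAlgebra F W) (b : W) :
    EE α c s Θ y₁ β₁ y₂ β₂ y₃ β₃ b
      = -(P3 α α α * NN s Θ y₁ b y₂ y₃ + Q3 α β₁ * NN s Θ c b y₂ y₃
        + Q3 α β₂ * NN s Θ y₁ b c y₃ + Q3 α β₃ * NN s Θ y₁ b y₂ c) := by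
  have even2 : ∀ v w : W, sg (ExteriorAlgebra.ι F v * ExteriorAlgebra.ι F w)
      = ExteriorAlgebra.ι F v * ExteriorAlgebra.ι F w := by
    intro v w; rw [map_mul, sg_ι, sg_ι, neg_mul_neg]
  have evenΘ : ∀ v : W, sg (ExteriorAlgebra.ι F v * Θ) = ExteriorAlgebra.ι F v * Θ := by
    intro v; rw [map_mul, sg_ι, hΘ, neg_mul_neg]
  have c12 : ∀ q r o : W, NN s Θ c q c o = 0 := by
    intro q r o
    rw [NN23, NN, ιsq', neg_zero]
  have c13 : ∀ q r : W, NN s Θ c q r c = 0 := by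
    intro q r
    rw [NN34, NN23, NN, ιsq', neg_zero, neg_zero]
  have c23 : ∀ p q : W, NN s Θ p q c c = 0 := by
    intro p q
    rw [NN, ιsq', mul_zero, mul_zero]
  rw [EE]
  simp only [add_mul, mul_assoc α, mul_assoc β₁, mul_assoc β₂, mul_assoc β₃, P3_add1, P3_add2,
    P3_add3]
  simp only [P3_even h2 _ _ _ _ _ _ (even2 _ _) (even2 _ _) (evenΘ _), UU, c13, c23,
    c12 _ y₃, P3_mid h2, P3_last h2 h3, ← Q3_def]
  simp only [neg_zero, mul_zero, add_zero, mul_neg, neg_add]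

theorem comb (h3 : (3 : F) = 0) (α : ExteriorAlgebra F W) (c s : W) (Θ : ExteriorAlgebra F W)
    (hΘ : sg Θ = -Θ) (y₀ y₁ y₂ y₃ : W) (β₀ β₁ β₂ β₃ : ExteriorAlgebra F W) :
    EE α c s Θ y₀ β₀ y₂ β₂ y₃ β₃ y₁ - EE α c s Θ y₁ β₁ y₂ β₂ y₃ β₃ y₀
      - EE α c s Θ y₀ β₀ y₁ β₁ y₃ β₃ y₂ + EE α c s Θ y₀ β₀ y₁ β₁ y₂ β₂ y₃
      = (2 : F) • (ev α ^ 3 * NN s Θ y₀ y₁ y₂ y₃) := by
  have z3 : ∀ t : ExteriorAlgebra F W, (3 : F) • t = 0 := fun t => by rw [h3, zero_smul]
  simp only [EE_eq h2 h3 α c s Θ hΘ]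
  rw [NN12 s Θ y₁ y₀ y₂ y₃, NN23 s Θ y₀ y₂ y₁ y₃, NN23 s Θ y₀ y₃ y₁ y₂, NN34 s Θ y₀ y₁ y₃ y₂,
    NN23 s Θ c y₂ y₁ y₃, NN23 s Θ c y₃ y₁ y₂, NN34 s Θ c y₁ y₃ y₂,
    NN12 s Θ c y₀ y₂ y₃, NN23 s Θ y₀ y₂ c y₃, NN23 s Θ y₀ y₃ c y₂, NN34 s Θ y₀ c y₃ y₂,
    NN12 s Θ y₁ y₀ c y₃, NN23 s Θ y₀ y₃ y₁ c, NN34 s Θ y₀ y₁ y₃ c,
    NN12 s Θ y₁ y₀ y₂ c, NN23 s Θ y₀ y₂ y₁ c, P3_cube h2]
  simp only [mul_neg, neg_neg, smul_mul_assoc, neg_smul, neg_mul]
  rw [← sub_eq_zero, ← z3 (-(Q3 α β₀ * NN s Θ c y₁ y₂ y₃) - Q3 α β₁ * NN s Θ y₀ c y₂ y₃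
    - Q3 α β₂ * NN s Θ y₀ y₁ c y₃ - Q3 α β₃ * NN s Θ y₀ y₁ y₂ c
    + (2 : F) • (ev α ^ 3 * NN s Θ y₀ y₁ y₂ y₃))]
  module

end Elevel

namespace CAlg

variable {F : Type u} [Field F] {W : Type u} [AddCommGroup W] [Module F W]
  {τ : ExteriorAlgebra F W →ₗ[F] F}

theorem fill_c (t : ℕ → CAlg τ) (s : CAlg τ) (hs : s.c = 0) (n : ℕ) :
    (fill t s n).c = 0 ∧ (fill t s n).al = s.al * wp (fun i => (t i).c) n := by
  induction n with
  | zero => exact ⟨hs, by simp [fill, wp]⟩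
  | succ n ih =>
    refine ⟨by simp [fill], ?_⟩
    rw [fill, al_mul, ih.1, ih.2, map_zero, mul_zero, add_zero, mul_assoc]
    rfl

theorem prod_val (h2 : (2 : F) ≠ 0) (P Q R : CAlg τ) (hP : P.c = 0) (hQ : Q.c = 0)
    (hR : R.c = 0) : (P * Q) * R = mk 0 0 0 (τ (P3 P.al Q.al R.al)) := by
  have e0 : (P * Q).al = 0 := by rw [al_mul, hP, hQ, map_zero, mul_zero, mul_zero, add_zero]
  have e1 : (P * Q).de = ev P.al * od Q.al - ev P.al * ev Q.al
      + (ev Q.al * od P.al - ev Q.al * ev P.al) := by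
    rw [de_mul, hde, hde, hP, hQ, map_zero, mul_zero, mul_zero, zero_add, zero_add]
  refine ext (c_mul _ _) ?_ ?_ ?_
  · rw [al_mul, e0, hR, c_mul, map_zero, mul_zero, mul_zero, add_zero]; rfl
  · rw [de_mul, hde, hde, e0, hR, c_mul]
    simp
  · rw [z_mul, e0, z_mk]
    simp only [map_zero, mul_zero, add_zero]
    congr 1
    have a1 : ev (P * Q).de = -(2 : F) • (ev P.al * ev Q.al) := by
      rw [e1]
      simp only [map_add, map_sub, ev_mul h2, ev_ev h2, ev_od, od_ev, zero_mul,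
        mul_zero, add_zero]
      rw [evev h2 Q.al P.al]
      module
    have a2 : od (P * Q).de = ev P.al * od Q.al + ev Q.al * od P.al := by
      rw [e1]
      simp only [map_add, map_sub, od_mul h2, ev_ev h2, od_od h2, od_ev, zero_mul,
        mul_zero, add_zero, sub_zero]
    rw [a1, a2, P3]
    simp only [smul_mul_assoc, add_mul, mul_assoc]

theorem word_val (h2 : (2 : F) ≠ 0) (t : ℕ → CAlg τ) (n : ℕ) (x y₁ y₂ y₃ b s : CAlg τ) :
    word t n x y₁ y₂ y₃ b s = mk 0 0 0 (τ (EE x.al x.c s.c (wp (fun i => (t i).c) n)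
      y₁.c y₁.al y₂.c y₂.al y₃.c y₃.al b.c)) := by
  obtain ⟨f1, f2⟩ := fill_c t (x * y₃) (c_mul _ _) n
  rw [word, prod_val h2 _ _ _ (c_mul _ _) (c_mul _ _) f1, f2, al_mul (x * y₁), al_mul (x * y₂),
    c_mul, c_mul, map_zero, mul_zero, mul_zero, add_zero, add_zero, al_mul x, al_mul x, al_mul x]
  rfl

theorem ff_val (h2 : (2 : F) ≠ 0) (h3 : (3 : F) = 0) (t : ℕ → CAlg τ) (n : ℕ) (hn : Odd n)
    (x : CAlg τ) :
    ff t n x = mk 0 0 0 (2 * τ (ev x.al ^ 3 * wp (fun i => (t i).c) (5 + n))) := by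
  have hΘ : sg (wp (F := F) (fun i => (t (5 + i)).c) n) = -wp (fun i => (t (5 + i)).c) n := by
    rw [sg_wp, hn.neg_one_pow, neg_one_smul]
  have hw : wp (F := F) (fun i => (t i).c) (5 + n)
      = NN (t 4).c (wp (fun i => (t (5 + i)).c) n) (t 0).c (t 1).c (t 2).c (t 3).c := by
    rw [wp_add]
    simp only [wp, NN, one_mul, mul_assoc]
  have key := comb h2 h3 x.al x.c (t 4).c _ hΘ (t 0).c (t 1).c (t 2).c (t 3).c
    (t 0).al (t 1).al (t 2).al (t 3).al
  rw [← hw] at key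
  rw [ff, word_val h2, word_val h2, word_val h2, word_val h2]
  refine ext ?_ ?_ ?_ ?_
  · simp
  · simp
  · simp
  · simp only [z_add, z_sub, z_mk]
    rw [← map_sub, ← map_sub, ← map_add, key, map_smul, smul_eq_mul]

end CAlg

end Pool.Agent.T9h93.CA
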